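import Mathlib
import Pool.Agent.H355R3.UF.Final

set_option autoImplicit false

namespace Pool.Agent.Results.MP_456268_al.UniqueFactorization

open H355R3 H355R3.UF

/-- Let `M` be a one-generated saturated formation and `F` a formation contained in `M`
(the hypothesis `F ≠ F * F` of the question is not needed). If
`F = F₁ * ⋯ * F_t` and `F = H₁ * ⋯ * H_s` with all the factors non-decomposable formations
(different from the formation of trivial groups), then `t = s` and `F_i = H_i` for all `i`. -/
theorem result (M : Formation) (hM : M.OneGeneratedSaturated) (F : Formation)
    (hFM : ∀ (X : Type) [Group X] [Finite X], F.Mem X → M.Mem X)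
    (l l' : List Formation) (hl : ∀ A ∈ l, Indec A) (hl' : ∀ A ∈ l', Indec A)
    (h : F = l.prod) (h' : F = l'.prod) : l = l' :=
  unique_factorization all M hM F hFM l l' hl hl' h.symm h'.symm

end Pool.Agent.Results.MP_456268_al.UniqueFactorization
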